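import Pool.Agent.T9h98.EP.Defs

/-!
# Project EP, piece (SPAN): basic lemmas
-/

set_option autoImplicit false

open Set
open scoped RealInnerProductSpace

namespace Pool.Agent.T9h95.EP

open Pool.Agent.T9h98.DC
open Pool.Agent.T9h98.EP

variable {d : ℕ}

/-- the parent of a node -/
theorem parent (i : Fin d) (hi : (i : ℕ) ≠ 0) : ∃ p : Fin d, p < i ∧ (p : ℕ) ≠ 3 ∧
    RD.anc i = insert p (RD.anc p) ∧ p ∉ RD.anc p ∧ ∀ j : Fin d, j < i →
      ((((i : ℕ) = 4 ∧ (j : ℕ) = 2) ∨ ((i : ℕ) ≠ 4 ∧ (j : ℕ) + 1 = i)) ↔ j = p) := by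
  have hid := i.isLt
  refine ⟨⟨if (i : ℕ) = 4 then 2 else (i : ℕ) - 1, by split_ifs <;> omega⟩, ?_, ?_, ?_, ?_, ?_⟩
  · rw [Fin.lt_def]
    show (if (i : ℕ) = 4 then 2 else (i : ℕ) - 1) < i
    split_ifs <;> omega
  · show (if (i : ℕ) = 4 then 2 else (i : ℕ) - 1) ≠ 3
    split_ifs <;> omega
  · ext j
    simp only [RD.anc, Finset.mem_filter, Finset.mem_univ, true_and, Finset.mem_insert, Fin.lt_def,
      Fin.ext_iff]
    split_ifs <;> omega
  · simp [RD.anc]
  · intro j hj
    rw [Fin.lt_def] at hj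
    rw [Fin.ext_iff]
    show _ ↔ (j : ℕ) = if (i : ℕ) = 4 then 2 else (i : ℕ) - 1
    split_ifs <;> omega

/-- the vectors `u i` -/
noncomputable def u (D : RD d) (i : Fin d) : E d := D.ω - ∑ j ∈ RD.anc i, D.α j

theorem u_inner (D : RD d) (i : Fin d) : ⟪u D i, D.α i⟫ = D.c := by
  unfold u
  rw [inner_sub_left, D.ring i, sum_inner]
  by_cases hi : (i : ℕ) = 0
  · have : RD.anc i = ∅ := by
      ext j
      simp only [RD.anc, Finset.mem_filter, Finset.mem_univ, true_and, Fin.lt_def,
        Finset.notMem_empty, iff_false]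
      omega
    rw [if_pos hi, this, Finset.sum_empty, sub_zero]
  · obtain ⟨p, hpi, hp3, hanc, hpa, hadj⟩ := parent i hi
    have h1 : ∀ j ∈ RD.anc i, ⟪D.α j, D.α i⟫ = if j = p then -D.c else 0 := by
      intro j hj
      have hji : j < i := (Finset.mem_filter.1 hj).2.1
      rw [real_inner_comm, D.adj i j hji]
      simp only [hadj j hji]
    rw [if_neg hi, Finset.sum_congr rfl h1, Finset.sum_ite_eq', if_pos]
    · ring
    · rw [hanc]
      exact Finset.mem_insert_self _ _

theorem u_step (D : RD d) (i : Fin d) (h : u D i ∈ D.V) : u D i - D.α i ∈ D.V := by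
  have h1 := D.refl i _ h
  rw [u_inner, div_self D.cpos.ne', one_smul] at h1
  exact h1

theorem u_mem (D : RD d) : ∀ (n : ℕ) (i : Fin d), (i : ℕ) = n → u D i ∈ D.V := by
  intro n
  induction n using Nat.strong_induction_on with
  | _ n ih =>
    intro i hin
    by_cases hi : (i : ℕ) = 0
    · have : RD.anc i = ∅ := by
        ext j
        simp only [RD.anc, Finset.mem_filter, Finset.mem_univ, true_and, Fin.lt_def,
          Finset.notMem_empty, iff_false]
        omega
      unfold u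
      rw [this, Finset.sum_empty, sub_zero]
      exact D.mem
    · obtain ⟨p, hpi, hp3, hanc, hpa, hadj⟩ := parent i hi
      have h1 : u D i = u D p - D.α p := by
        unfold u
        rw [hanc, Finset.sum_insert hpa]
        abel
      rw [h1]
      exact u_step D p (ih p (by rw [← hin]; exact hpi) p rfl)

theorem u_VT (D : RD d) {T : Finset (Fin d)} (hT : RD.Conn T) {i : Fin d} (hi : i ∈ T) :
    u D i ∈ D.VT T ∧ u D i - D.α i ∈ D.VT T := by
  have h1 : D.ω - u D i ∈ Submodule.span ℝ (D.α '' (T : Set (Fin d))) := by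
    have : D.ω - u D i = ∑ j ∈ RD.anc i, D.α j := by
      unfold u
      abel
    rw [this]
    exact Submodule.sum_mem _ fun j hj => Submodule.subset_span ⟨j, hT i hi hj, rfl⟩
  have h2 : D.α i ∈ Submodule.span ℝ (D.α '' (T : Set (Fin d))) := Submodule.subset_span ⟨i, hi, rfl⟩
  refine ⟨⟨u_mem D i i rfl, h1⟩, ⟨u_step D i (u_mem D i i rfl), ?_⟩⟩
  have : D.ω - (u D i - D.α i) = (D.ω - u D i) + D.α i := by abel
  rw [this]
  exact Submodule.add_mem _ h1 h2

theorem span_top (D : RD d) : Submodule.span ℝ (Set.range D.α) = ⊤ :=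
  D.lin.span_eq_top_of_card_eq_finrank' (by simp)

theorem exists_dual (D : RD d) (f : Fin d → ℝ) : ∃ a : E d, ∀ i, ⟪D.α i, a⟫ = f i := by
  let L : E d →ₗ[ℝ] (Fin d → ℝ) := LinearMap.pi fun i => (innerₛₗ ℝ (D.α i))
  have hL : ∀ x i, L x i = ⟪D.α i, x⟫ := fun x i => rfl
  have hinj : Function.Injective L := by
    rw [← LinearMap.ker_eq_bot, LinearMap.ker_eq_bot']
    intro x hx
    have h1 : ∀ y ∈ Submodule.span ℝ (Set.range D.α), ⟪y, x⟫ = 0 := by
      intro y hy
      induction hy using Submodule.span_induction with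
      | mem y hy =>
        obtain ⟨i, rfl⟩ := hy
        rw [← hL, hx]
        rfl
      | zero => exact inner_zero_left _
      | add y z _ _ h2 h3 => rw [inner_add_left, h2, h3, add_zero]
      | smul r y _ h2 => rw [real_inner_smul_left, h2, mul_zero]
    have h2 : ⟪x, x⟫ = 0 := h1 x (by rw [span_top]; trivial)
    exact inner_self_eq_zero.1 h2
  have hsurj : Function.Surjective L := by
    refine (LinearMap.injective_iff_surjective_of_finrank_eq_finrank ?_).1 hinj
    simp
  obtain ⟨a, ha⟩ := hsurj f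
  exact ⟨a, fun i => by rw [← hL, ha]⟩

theorem span_VT (D : RD d) (T : Finset (Fin d)) (hT : RD.Conn T) :
    vectorSpan ℝ (D.VT T) = Submodule.span ℝ (D.α '' (T : Set (Fin d))) := by
  refine le_antisymm ?_ ?_
  · rw [vectorSpan_def, Submodule.span_le]
    rintro _ ⟨x, hx, y, hy, rfl⟩
    have : x -ᵥ y = (D.ω - y) - (D.ω - x) := by
      rw [vsub_eq_sub]
      abel
    show x -ᵥ y ∈ Submodule.span ℝ (D.α '' (T : Set (Fin d)))
    rw [this]
    exact Submodule.sub_mem _ hy.2 hx.2
  · rw [Submodule.span_le]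
    rintro _ ⟨i, hi, rfl⟩
    obtain ⟨h1, h2⟩ := u_VT D hT hi
    have h3 := vsub_mem_vectorSpan ℝ h1 h2
    rw [vsub_eq_sub] at h3
    have h4 : u D i - (u D i - D.α i) = D.α i := by abel
    rw [h4] at h3
    exact h3

/-- **SPAN** -/
theorem span : S_SPAN := by
  intro d D
  have hV : vectorSpan ℝ D.V = ⊤ := by
    have h1 : vectorSpan ℝ (D.VT Finset.univ) = ⊤ := by
      rw [span_VT D Finset.univ (fun i _ => Finset.subset_univ _), Finset.coe_univ, Set.image_univ,
        span_top]
    rw [eq_top_iff, ← h1]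
    exact vectorSpan_mono ℝ fun v hv => hv.1
  refine ⟨exists_dual D, fun T hT => ?_, ?_, ?_⟩
  · have h1 := span_VT D T hT
    refine ⟨h1, ?_⟩
    rw [h1]
    have h2 : LinearIndependent ℝ (fun i : T => D.α i) := D.lin.comp _ Subtype.coe_injective
    have h3 := finrank_span_eq_card h2
    have h4 : Set.range (fun i : T => D.α i) = D.α '' (T : Set (Fin d)) := by
      ext x
      simp
    rw [h4] at h3
    rw [h3, Fintype.card_coe]
  · have hne : (D.V).Nonempty := ⟨D.ω, D.mem⟩
    have : affineSpan ℝ D.V = ⊤ :=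
      (AffineSubspace.affineSpan_eq_top_iff_vectorSpan_eq_top_of_nonempty ℝ _ _ hne).2 hV
    exact interior_convexHull_nonempty_iff_affineSpan_eq_top.2 this
  · rw [eq_top_iff, ← hV, vectorSpan_def, Submodule.span_le]
    rintro _ ⟨x, hx, y, hy, rfl⟩
    show x -ᵥ y ∈ Submodule.span ℝ D.V
    rw [vsub_eq_sub]
    exact Submodule.sub_mem _ (Submodule.subset_span hx) (Submodule.subset_span hy)

end Pool.Agent.T9h95.EP
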